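import Pool.Agent.U261.FM.FB
set_option autoImplicit false
/-! JOB A (basic properties of `F`). -/
namespace Pool.Agent.U140.FM
open Finset Relation

namespace JA

open JB

variable {V M : Type} [DecidableEq V] [Fintype M] [Inhabited M]
variable (step : V → M → V) (r : V → ℝ) {K : ℕ}

theorem avg_add_const {α : Type} [Fintype α] [Nonempty α] (f : α → ℝ) (c : ℝ) :
    avg (fun x => f x + c) = avg f + c := by
  rw [avg_add f (fun _ => c), avg_const]

theorem avg_const_add {α : Type} [Fintype α] [Nonempty α] (c : ℝ) (f : α → ℝ) :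
    avg (fun x => c + f x) = c + avg f := by
  rw [avg_add (fun _ => c) f, avg_const]

theorem path_length (l : List M) : ∀ x : V, (path step x l).length = l.length := by
  induction l with
  | nil => intro x; rfl
  | cons a l ih => intro x; simp [path, ih]

theorem gain_le (hr1 : ∀ v, r v ≤ 1) (x : V) (u : Fin K → M) : gain step r x u ≤ K := by
  unfold gain
  have h1 : ((path step x (List.ofFn u)).map r).sum ≤
      ((path step x (List.ofFn u)).map r).length • (1 : ℝ) := by
    refine List.sum_le_card_nsmul _ _ ?_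
    intro a ha
    obtain ⟨v, _, rfl⟩ := List.mem_map.1 ha
    exact hr1 v
  refine h1.trans (le_of_eq ?_)
  rw [List.length_map, path_length, List.length_ofFn, nsmul_eq_mul, mul_one]

theorem base_le (hr : ∀ v, 0 ≤ r v) (hr1 : ∀ v, r v ≤ 1) (Z : Finset V) (w : V → Fin K → M)
    (X : Finset V) : base step r Z w X ≤ (Z.card : ℝ) * K := by
  unfold base
  calc ∑ z ∈ reach step Z w X, gain step r z (w z) ≤ ∑ z ∈ Z, gain step r z (w z) :=
        Finset.sum_le_sum_of_subset_of_nonneg (reach_subset step Z w X)
          fun _ _ _ => gain_nonneg step r hr _ _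
    _ ≤ ∑ _z ∈ Z, (K : ℝ) := Finset.sum_le_sum fun z _ => gain_le step r hr1 _ _
    _ = (Z.card : ℝ) * K := by rw [Finset.sum_const, nsmul_eq_mul]

theorem Phi_le (hr : ∀ v, 0 ≤ r v) (hr1 : ∀ v, r v ≤ 1) (Z Z' : Finset V) (w : V → Fin K → M)
    (O : List V) : ∀ X Y : Finset V, Phi step r Z w X O ≤ Phi step r Z' w Y O + (Z.card : ℝ) * K := by
  induction O with
  | nil =>
    intro X Y
    have h1 := base_le step r hr hr1 Z w X
    have h2 : 0 ≤ base step r Z' w Y := Phi_nonneg step r hr Z' w [] Y
    unfold Phi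
    linarith
  | cons x O ih =>
    intro X Y
    unfold Phi
    rw [← avg_const (α := Fin K → M) ((Z.card : ℝ) * K), ← avg_add]
    refine avg_mono fun u => ?_
    have := ih (X ∪ vis step x u) (Y ∪ vis step x u)
    linarith

theorem reach_mono_set {Z Z' : Finset V} (h : Z ⊆ Z') (w : V → Fin K → M) (X : Finset V) :
    reach step Z w X ⊆ reach step Z' w X := by
  classical
  intro z hz
  unfold reach at hz ⊢
  rw [Finset.mem_filter] at hz ⊢
  obtain ⟨h1, x, hx, hxZ, hp⟩ := hz
  refine ⟨h h1, x, hx, h hxZ, ?_⟩
  refine ReflTransGen.mono (fun a b hab => ?_) _ _ hp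
  exact ⟨h hab.1, hab.2⟩

theorem Phi_mono_set (hr : ∀ v, 0 ≤ r v) {Z Z' : Finset V} (h : Z ⊆ Z') (w : V → Fin K → M)
    (O : List V) : ∀ X : Finset V, Phi step r Z w X O ≤ Phi step r Z' w X O := by
  induction O with
  | nil =>
    intro X
    exact Finset.sum_le_sum_of_subset_of_nonneg (reach_mono_set step h w X)
      fun _ _ _ => gain_nonneg step r hr _ _
  | cons x O ih =>
    intro X
    unfold Phi
    refine avg_mono fun u => ?_
    have := ih (X ∪ vis step x u)
    linarith

theorem reach_union (Z : Finset V) (w : V → Fin K → M) (X Y : Finset V) :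
    reach step Z w (X ∪ Y) = reach step Z w X ∪ reach step Z w Y := by
  classical
  ext z
  unfold reach
  simp only [Finset.mem_filter, Finset.mem_union]
  constructor
  · rintro ⟨hz, x, hx | hx, h⟩
    · exact Or.inl ⟨hz, x, hx, h⟩
    · exact Or.inr ⟨hz, x, hx, h⟩
  · rintro (⟨hz, x, hx, h⟩ | ⟨hz, x, hx, h⟩)
    · exact ⟨hz, x, Or.inl hx, h⟩
    · exact ⟨hz, x, Or.inr hx, h⟩

theorem Phi_sub (hr : ∀ v, 0 ≤ r v) (Z : Finset V) (w : V → Fin K → M) (O : List V) :
    ∀ X A A' : Finset V, Phi step r Z w (X ∪ A ∪ A') O + Phi step r Z w X O ≤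
      Phi step r Z w (X ∪ A) O + Phi step r Z w (X ∪ A') O := by
  classical
  induction O with
  | nil =>
    intro X A A'
    unfold Phi base
    have h1 : reach step Z w (X ∪ A ∪ A') = reach step Z w (X ∪ A) ∪ reach step Z w (X ∪ A') := by
      simp only [reach_union]
      ext z
      simp only [Finset.mem_union]
      tauto
    have h2 : reach step Z w X ⊆ reach step Z w (X ∪ A) ∩ reach step Z w (X ∪ A') := by
      intro z hz
      rw [Finset.mem_inter]
      exact ⟨reach_mono step Z w Finset.subset_union_left hz,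
        reach_mono step Z w Finset.subset_union_left hz⟩
    have h3 := Finset.sum_union_inter (s₁ := reach step Z w (X ∪ A)) (s₂ := reach step Z w (X ∪ A'))
      (f := fun z => gain step r z (w z))
    have h4 := Finset.sum_le_sum_of_subset_of_nonneg (f := fun z => gain step r z (w z)) h2
      fun _ _ _ => gain_nonneg step r hr _ _
    rw [h1]
    linarith
  | cons x O ih =>
    intro X A A'
    unfold Phi
    rw [← avg_add, ← avg_add]
    refine avg_mono fun u => ?_
    have h := ih (X ∪ vis step x u) A A'
    have e1 : X ∪ A ∪ A' ∪ vis step x u = X ∪ vis step x u ∪ A ∪ A' := by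
      ext z; simp only [Finset.mem_union]; tauto
    have e2 : X ∪ A ∪ vis step x u = X ∪ vis step x u ∪ A := by
      ext z; simp only [Finset.mem_union]; tauto
    have e3 : X ∪ A' ∪ vis step x u = X ∪ vis step x u ∪ A' := by
      ext z; simp only [Finset.mem_union]; tauto
    rw [e1, e2, e3]
    linarith

theorem Phi_perm (Z : Finset V) (w : V → Fin K → M) {O O' : List V} (h : O.Perm O') :
    ∀ X : Finset V, Phi step r Z w X O = Phi step r Z w X O' := by
  induction h with
  | nil => intro X; rfl
  | cons x _ ih => intro X; unfold Phi; exact avg_congr fun u => by rw [ih]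
  | swap x y l =>
    intro X
    have e : ∀ a b : V, Phi step r Z w X (a :: b :: l) = avg fun u : Fin K → M =>
        avg fun v : Fin K → M => gain step r a u + gain step r b v +
          Phi step r Z w (X ∪ vis step a u ∪ vis step b v) l := by
      intro a b
      have : Phi step r Z w X (a :: b :: l) = avg fun u : Fin K → M => gain step r a u +
        avg fun v : Fin K → M => gain step r b v +
          Phi step r Z w (X ∪ vis step a u ∪ vis step b v) l := rfl
      rw [this]
      refine avg_congr fun u => ?_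
      rw [← avg_const (α := Fin K → M) (gain step r a u), ← avg_add]
      refine avg_congr fun v => ?_
      rw [avg_const]
      ring
    rw [e y x, e x y, avg_comm]
    refine avg_congr fun u => avg_congr fun v => ?_
    rw [Finset.union_right_comm X (vis step y v), add_comm (gain step r y v)]
  | trans _ _ ih1 ih2 => intro X; rw [ih1, ih2]

end JA

open JB JA

variable {V M : Type} [DecidableEq V] [Fintype M] [Inhabited M]
variable (step : V → M → V) (r : V → ℝ) (K : ℕ) (B : Finset V)

theorem F_perm {O O' : List V} (h : O.Perm O') (Z : Set V) : F step r K B O Z = F step r K B O' Z := by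
  unfold F
  exact avg_congr fun w => Phi_perm step r _ _ h _

theorem F_nil (Z : Set V) : F step r K B [] Z = 0 := by
  classical
  unfold F
  rw [avg_congr (g := fun _ => 0), avg_const]
  intro w
  unfold Phi base
  refine Finset.sum_eq_zero fun z hz => ?_
  unfold reach at hz
  rw [Finset.mem_filter] at hz
  obtain ⟨_, x, hx, _⟩ := hz
  exact absurd hx (Finset.notMem_empty x)

theorem F_nonneg (hr : ∀ v, 0 ≤ r v) (O : List V) (Z : Set V) : 0 ≤ F step r K B O Z :=
  JB.F_nonneg' step r K B hr O Z

/-- bounded increments -/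
theorem F_cons_le (hr : ∀ v, 0 ≤ r v) (hr1 : ∀ v, r v ≤ 1) (x : V) (O : List V) (Z : Set V) :
    F step r K B (x :: O) Z ≤ F step r K B O Z + ((B.card : ℝ) + 1) * K := by
  classical
  unfold F
  rw [← avg_add_const]
  refine avg_mono fun w => ?_
  have e : ∀ Z' : Finset V, Phi step r Z' (ext B w) ∅ (x :: O) = avg fun u : Fin K → M =>
      gain step r x u + Phi step r Z' (ext B w) (∅ ∪ vis step x u) O := fun _ => rfl
  rw [e, ← avg_const (α := Fin K → M) (Phi step r _ (ext B w) ∅ O + ((B.card : ℝ) + 1) * K)]
  refine avg_mono fun u => ?_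
  have h1 := gain_le step r hr1 x u
  have h2 := Phi_le step r hr hr1 (B.filter (· ∈ Z)) (B.filter (· ∈ Z)) (ext B w) O (∅ ∪ vis step x u) ∅
  have h3 : ((B.filter (· ∈ Z)).card : ℝ) * K ≤ (B.card : ℝ) * K := by
    gcongr
    exact Finset.filter_subset _ _
  have h4 : ((B.card : ℝ) + 1) * K = (B.card : ℝ) * K + K := by ring
  rw [h4]
  linarith

/-- bounded dependence on `Z` -/
theorem F_le_set (hr : ∀ v, 0 ≤ r v) (hr1 : ∀ v, r v ≤ 1) (O : List V) (Z Z' : Set V) :
    F step r K B O Z ≤ F step r K B O Z' + (B.card : ℝ) * K := by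
  classical
  unfold F
  rw [← avg_add_const]
  refine avg_mono fun w => ?_
  have h2 := Phi_le step r hr hr1 (B.filter (· ∈ Z)) (B.filter (· ∈ Z')) (ext B w) O ∅ ∅
  have h3 : ((B.filter (· ∈ Z)).card : ℝ) * K ≤ (B.card : ℝ) * K := by
    gcongr
    exact Finset.filter_subset _ _
  linarith

theorem F_mono_cons (hr : ∀ v, 0 ≤ r v) (x : V) (O : List V) (Z : Set V) :
    F step r K B O Z ≤ F step r K B (x :: O) Z := by
  classical
  unfold F
  refine avg_mono fun w => ?_
  have e : ∀ Z' : Finset V, Phi step r Z' (ext B w) ∅ (x :: O) = avg fun u : Fin K → M =>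
      gain step r x u + Phi step r Z' (ext B w) (∅ ∪ vis step x u) O := fun _ => rfl
  rw [e, ← avg_const (α := Fin K → M) (Phi step r _ (ext B w) ∅ O)]
  refine avg_mono fun u => ?_
  have h1 := gain_nonneg step r hr x u
  have h2 := Phi_mono step r hr (B.filter (· ∈ Z)) (ext B w) O (Finset.empty_subset (∅ ∪ vis step x u))
  linarith

theorem F_mono_set (hr : ∀ v, 0 ≤ r v) (O : List V) {Z Z' : Set V} (h : ∀ v ∈ B, v ∈ Z → v ∈ Z') :
    F step r K B O Z ≤ F step r K B O Z' := by
  classical
  unfold F
  refine avg_mono fun w => ?_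
  refine Phi_mono_set step r hr ?_ _ _ _
  intro z hz
  rw [Finset.mem_filter] at hz ⊢
  exact ⟨hz.1, h z hz.1 hz.2⟩

/-- submodularity -/
theorem F_sub (hr : ∀ v, 0 ≤ r v) (a b : V) (O : List V) (Z : Set V) :
    F step r K B (a :: b :: O) Z + F step r K B O Z ≤ F step r K B (a :: O) Z + F step r K B (b :: O) Z := by
  classical
  unfold F
  rw [← avg_add, ← avg_add]
  refine avg_mono fun w => ?_
  set Z' : Finset V := B.filter (· ∈ Z) with hZ'
  have e1 : ∀ (c : V) (O : List V) (X : Finset V), Phi step r Z' (ext B w) X (c :: O) =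
      avg fun u : Fin K → M => gain step r c u + Phi step r Z' (ext B w) (X ∪ vis step c u) O :=
    fun _ _ _ => rfl
  have e2 : Phi step r Z' (ext B w) ∅ (a :: b :: O) + Phi step r Z' (ext B w) ∅ O =
      avg fun u : Fin K → M => avg fun v : Fin K → M => gain step r a u + ((gain step r b v +
        Phi step r Z' (ext B w) (∅ ∪ vis step a u ∪ vis step b v) O) + Phi step r Z' (ext B w) ∅ O) := by
    rw [e1, ← avg_add_const]
    refine avg_congr fun u => ?_
    rw [e1, avg_const_add, avg_add_const]
    ring
  have e3 : Phi step r Z' (ext B w) ∅ (a :: O) + Phi step r Z' (ext B w) ∅ (b :: O) =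
      avg fun u : Fin K → M => avg fun v : Fin K → M =>
        (gain step r a u + Phi step r Z' (ext B w) (∅ ∪ vis step a u) O) +
        (gain step r b v + Phi step r Z' (ext B w) (∅ ∪ vis step b v) O) := by
    rw [e1 a, e1 b, ← avg_add_const]
    refine avg_congr fun u => ?_
    rw [avg_const_add]
  rw [e2, e3]
  refine avg_mono fun u => avg_mono fun v => ?_
  have := Phi_sub step r hr Z' (ext B w) O ∅ (vis step a u) (vis step b v)
  linarith

end Pool.Agent.U140.FM
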