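import Pool.Agent.U140.FM.Def
set_option autoImplicit false
/-! JOB B (one move of an awake frog): `F_step` and `F_dead`. -/
namespace Pool.Agent.U140.FM
open Finset Relation

namespace JB

/-! ### averages -/

section avg

variable {α β : Type} [Fintype α] [Fintype β]

theorem avg_congr {f g : α → ℝ} (h : ∀ x, f x = g x) : avg f = avg g := by
  unfold avg; rw [Finset.sum_congr rfl fun x _ => h x]

theorem avg_mono {f g : α → ℝ} (h : ∀ x, f x ≤ g x) : avg f ≤ avg g := by
  unfold avg; gcongr with x _; exact h x

theorem avg_nonneg {f : α → ℝ} (h : ∀ x, 0 ≤ f x) : 0 ≤ avg f := by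
  unfold avg; exact div_nonneg (Finset.sum_nonneg fun x _ => h x) (Nat.cast_nonneg _)

theorem avg_add (f g : α → ℝ) : avg (fun x => f x + g x) = avg f + avg g := by
  unfold avg; rw [Finset.sum_add_distrib, add_div]

theorem avg_const [Nonempty α] (c : ℝ) : avg (fun _ : α => c) = c := by
  unfold avg
  have : (Fintype.card α : ℝ) ≠ 0 := by exact_mod_cast Fintype.card_ne_zero
  rw [Finset.sum_const, Finset.card_univ, nsmul_eq_mul]
  field_simp

theorem avg_comm (f : α → β → ℝ) : avg (fun x => avg fun y => f x y) = avg fun y => avg fun x => f x y := by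
  unfold avg
  simp only [← Finset.sum_div]
  rw [Finset.sum_comm, div_right_comm]

theorem avg_prod (f : α × β → ℝ) : avg f = avg fun x => avg fun y => f (x, y) := by
  unfold avg
  simp only [← Finset.sum_div]
  rw [Fintype.sum_prod_type, Fintype.card_prod, Nat.cast_mul, div_div, mul_comm]

theorem avg_equiv (e : α ≃ β) (f : β → ℝ) : avg f = avg fun x => f (e x) := by
  unfold avg
  rw [Fintype.card_congr e, Equiv.sum_comp e f]

/-- resampling: the coordinate `i` may be replaced by an independent one -/
theorem avg_resample {ι : Type} [Fintype ι] [DecidableEq ι] [Nonempty α] (i : ι)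
    (G : α → (ι → α) → ℝ) (hG : ∀ u w u', G u (Function.update w i u') = G u w) :
    avg (fun w : ι → α => G (w i) w) = avg fun w : ι → α => avg fun u => G u w := by
  classical
  let e : (ι → α) × α ≃ (ι → α) × α :=
    { toFun := fun p => (Function.update p.1 i p.2, p.1 i)
      invFun := fun p => (Function.update p.1 i p.2, p.1 i)
      left_inv := fun p => by
        ext j
        · by_cases h : j = i
          · subst h; simp
          · simp [h]
        · simp
      right_inv := fun p => by
        ext j
        · by_cases h : j = i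
          · subst h; simp
          · simp [h]
        · simp }
  have h1 : avg (fun w : ι → α => G (w i) w) = avg fun p : (ι → α) × α => G (p.1 i) p.1 := by
    rw [avg_prod]
    exact avg_congr fun w => (avg_const _).symm
  rw [h1, avg_equiv e, avg_prod]
  refine avg_congr fun w => avg_congr fun u => ?_
  simp only [e, Equiv.coe_fn_mk, Function.update_self]
  exact hG u w u

end avg

/-! ### walks -/

section

variable {V M : Type} [DecidableEq V] [Fintype M] [Inhabited M]
variable (step : V → M → V) (r : V → ℝ)

theorem path_append (l1 l2 : List M) : ∀ x : V, ∃ t, path step x (l1 ++ l2) = path step x l1 ++ t := by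
  induction l1 with
  | nil => intro x; exact ⟨_, rfl⟩
  | cons a l ih =>
    intro x
    obtain ⟨t, ht⟩ := ih (step x a)
    exact ⟨t, by simp only [List.cons_append, path, ht]⟩

/-- the visited set of a list of moves -/
def visL (x : V) (l : List M) : Finset V := (path step x l).toFinset

/-- the reward of a list of moves -/
noncomputable def gainL (x : V) (l : List M) : ℝ := ((path step x l).map r).sum

theorem gainL_nonneg (hr : ∀ v, 0 ≤ r v) (x : V) (l : List M) : 0 ≤ gainL step r x l := by
  unfold gainL
  refine List.sum_nonneg ?_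
  intro a ha
  obtain ⟨v, _, rfl⟩ := List.mem_map.1 ha
  exact hr v

theorem gain_nonneg {K : ℕ} (hr : ∀ v, 0 ≤ r v) (x : V) (u : Fin K → M) : 0 ≤ gain step r x u :=
  gainL_nonneg step r hr x _

theorem visL_cons (x : V) (a : M) (l : List M) :
    visL step x (a :: l) = insert (step x a) (visL step (step x a) l) := by
  simp [visL, path]

theorem gainL_cons (x : V) (a : M) (l : List M) :
    gainL step r x (a :: l) = r (step x a) + gainL step r (step x a) l := by
  simp [gainL, path]

theorem visL_append (x : V) (l1 l2 : List M) : visL step x l1 ⊆ visL step x (l1 ++ l2) := by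
  obtain ⟨t, ht⟩ := path_append step l1 l2 x
  unfold visL
  rw [ht, List.toFinset_append]
  exact Finset.subset_union_left

theorem gainL_append (hr : ∀ v, 0 ≤ r v) (x : V) (l1 l2 : List M) :
    gainL step r x l1 ≤ gainL step r x (l1 ++ l2) := by
  obtain ⟨t, ht⟩ := path_append step l1 l2 x
  unfold gainL
  rw [ht, List.map_append, List.sum_append]
  have : 0 ≤ (t.map r).sum := by
    refine List.sum_nonneg ?_
    intro a ha
    obtain ⟨v, _, rfl⟩ := List.mem_map.1 ha
    exact hr v
  linarith

/-! ### the set of awake frogs -/

variable {K : ℕ}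

theorem reach_mono (Z : Finset V) (w : V → Fin K → M) {X Y : Finset V} (h : X ⊆ Y) :
    reach step Z w X ⊆ reach step Z w Y := by
  classical
  intro z hz
  unfold reach at hz ⊢
  rw [Finset.mem_filter] at hz ⊢
  obtain ⟨h1, x, hx, h2⟩ := hz
  exact ⟨h1, x, h hx, h2⟩

theorem base_mono (hr : ∀ v, 0 ≤ r v) (Z : Finset V) (w : V → Fin K → M) {X Y : Finset V} (h : X ⊆ Y) :
    base step r Z w X ≤ base step r Z w Y := by
  unfold base
  exact Finset.sum_le_sum_of_subset_of_nonneg (reach_mono step Z w h)
    fun _ _ _ => gain_nonneg step r hr _ _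

theorem Phi_mono (hr : ∀ v, 0 ≤ r v) (Z : Finset V) (w : V → Fin K → M) (O : List V) :
    ∀ {X Y : Finset V}, X ⊆ Y → Phi step r Z w X O ≤ Phi step r Z w Y O := by
  induction O with
  | nil => intro X Y h; exact base_mono step r hr Z w h
  | cons x O ih =>
    intro X Y h
    unfold Phi
    refine avg_mono fun u => ?_
    have := ih (Finset.union_subset_union_left (t := vis step x u) h)
    linarith

theorem Phi_nonneg (hr : ∀ v, 0 ≤ r v) (Z : Finset V) (w : V → Fin K → M) (O : List V) :
    ∀ X : Finset V, 0 ≤ Phi step r Z w X O := by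
  induction O with
  | nil => intro X; exact Finset.sum_nonneg fun _ _ => gain_nonneg step r hr _ _
  | cons x O ih =>
    intro X
    unfold Phi
    exact avg_nonneg fun u => add_nonneg (gain_nonneg step r hr _ _) (ih _)

/-- sites outside of `Z` are irrelevant -/
theorem reach_irrel (Z : Finset V) (w : V → Fin K → M) {X Y : Finset V}
    (h : ∀ z ∈ Z, z ∈ X ↔ z ∈ Y) : reach step Z w X = reach step Z w Y := by
  classical
  unfold reach
  refine Finset.filter_congr fun z _ => ?_
  constructor
  · rintro ⟨x, hx, hxZ, hp⟩; exact ⟨x, (h x hxZ).1 hx, hxZ, hp⟩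
  · rintro ⟨x, hx, hxZ, hp⟩; exact ⟨x, (h x hxZ).2 hx, hxZ, hp⟩

theorem Phi_irrel (Z : Finset V) (w : V → Fin K → M) (O : List V) :
    ∀ {X Y : Finset V}, (∀ z ∈ Z, z ∈ X ↔ z ∈ Y) → Phi step r Z w X O = Phi step r Z w Y O := by
  induction O with
  | nil => intro X Y h; unfold Phi base; rw [reach_irrel step Z w h]
  | cons x O ih =>
    intro X Y h
    unfold Phi
    refine avg_congr fun u => ?_
    rw [ih (X := X ∪ vis step x u) (Y := Y ∪ vis step x u)]
    intro z hz
    simp only [Finset.mem_union, h z hz]

/-- the moves of the sites outside of `Z` are irrelevant -/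
theorem reach_dep (Z : Finset V) (w w' : V → Fin K → M) (h : ∀ z ∈ Z, w z = w' z) (X : Finset V) :
    reach step Z w X = reach step Z w' X := by
  classical
  have key : ∀ w w' : V → Fin K → M, (∀ z ∈ Z, w z = w' z) → ∀ x z, x ∈ Z →
      ReflTransGen (edge step Z w) x z → z ∈ Z ∧ ReflTransGen (edge step Z w') x z := by
    intro w w' h x z hx hp
    induction hp with
    | refl => exact ⟨hx, ReflTransGen.refl⟩
    | tail hab hbc ih =>
      rename_i b d
      refine ⟨hbc.1, ih.2.tail ⟨hbc.1, ?_⟩⟩
      rw [← h b ih.1]
      exact hbc.2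
  unfold reach
  refine Finset.filter_congr fun z _ => ?_
  constructor
  · rintro ⟨x, hx, hxZ, hp⟩; exact ⟨x, hx, hxZ, (key w w' h x z hxZ hp).2⟩
  · rintro ⟨x, hx, hxZ, hp⟩
    exact ⟨x, hx, hxZ, (key w' w (fun z hz => (h z hz).symm) x z hxZ hp).2⟩

theorem reach_subset (Z : Finset V) (w : V → Fin K → M) (X : Finset V) : reach step Z w X ⊆ Z := by
  classical
  unfold reach
  exact Finset.filter_subset _ _

theorem Phi_dep (Z : Finset V) (w w' : V → Fin K → M) (h : ∀ z ∈ Z, w z = w' z) (O : List V) :
    ∀ X : Finset V, Phi step r Z w X O = Phi step r Z w' X O := by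
  induction O with
  | nil =>
    intro X
    unfold Phi base
    rw [reach_dep step Z w w' h X]
    exact Finset.sum_congr rfl fun z hz => by rw [h z (reach_subset step Z w' X hz)]
  | cons x O ih =>
    intro X
    unfold Phi
    exact avg_congr fun u => by rw [ih]

/-- waking the frog at `y` -/
theorem reach_insert (Z : Finset V) (w : V → Fin K → M) (X : Finset V) (y : V) (hy : y ∈ Z) :
    reach step Z w (insert y X) = insert y (reach step (Z.erase y) w (X ∪ vis step y (w y))) := by
  classical
  ext z
  rw [Finset.mem_insert]
  unfold reach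
  rw [Finset.mem_filter, Finset.mem_filter]
  constructor
  · rintro ⟨hz, x0, hx0, hx0Z, hp⟩
    have key : z = y ∨ (z ∈ Z.erase y ∧ ∃ x ∈ X ∪ vis step y (w y), x ∈ Z.erase y ∧
        ReflTransGen (edge step (Z.erase y) w) x z) := by
      clear hz
      induction hp with
      | refl =>
        by_cases h : x0 = y
        · exact Or.inl h
        · have h1 : x0 ∈ X := (Finset.mem_insert.1 hx0).resolve_left h
          have h2 : x0 ∈ Z.erase y := Finset.mem_erase.2 ⟨h, hx0Z⟩
          exact Or.inr ⟨h2, x0, Finset.mem_union_left _ h1, h2, ReflTransGen.refl⟩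
      | tail hab hbc ih =>
        rename_i b d
        by_cases h : d = y
        · exact Or.inl h
        · have h2 : d ∈ Z.erase y := Finset.mem_erase.2 ⟨h, hbc.1⟩
          rcases ih with hb | ⟨_, x1, hx1, hx1Z, hp1⟩
          · refine Or.inr ⟨h2, d, Finset.mem_union_right _ ?_, h2, ReflTransGen.refl⟩
            rw [← hb]; exact hbc.2
          · exact Or.inr ⟨h2, x1, hx1, hx1Z, hp1.tail ⟨h2, hbc.2⟩⟩
    exact key
  · have mono : ∀ x z, ReflTransGen (edge step (Z.erase y) w) x z → ReflTransGen (edge step Z w) x z := by
      intro x z hp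
      refine ReflTransGen.mono (fun a b hab => ?_) _ _ hp
      exact ⟨(Finset.mem_erase.1 hab.1).2, hab.2⟩
    rintro (rfl | ⟨hz, x1, hx1, hx1Z, hp⟩)
    · exact ⟨hy, z, Finset.mem_insert_self _ _, hy, ReflTransGen.refl⟩
    · refine ⟨(Finset.mem_erase.1 hz).2, ?_⟩
      rcases Finset.mem_union.1 hx1 with h | h
      · exact ⟨x1, Finset.mem_insert_of_mem h, (Finset.mem_erase.1 hx1Z).2, mono _ _ hp⟩
      · exact ⟨y, Finset.mem_insert_self _ _, hy,
          ReflTransGen.head ⟨(Finset.mem_erase.1 hx1Z).2, h⟩ (mono _ _ hp)⟩

theorem Phi_insert (Z : Finset V) (w : V → Fin K → M) (y : V) (hy : y ∈ Z) (O : List V) :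
    ∀ X : Finset V, Phi step r Z w (insert y X) O =
      gain step r y (w y) + Phi step r (Z.erase y) w (X ∪ vis step y (w y)) O := by
  classical
  induction O with
  | nil =>
    intro X
    unfold Phi base
    rw [reach_insert step Z w X y hy, Finset.sum_insert]
    intro h
    exact absurd (reach_subset step _ w _ h) (Finset.notMem_erase y Z)
  | cons x O ih =>
    intro X
    unfold Phi
    have : ∀ u : Fin K → M, gain step r x u + Phi step r Z w (insert y X ∪ vis step x u) O =
        gain step r y (w y) + (gain step r x u +
          Phi step r (Z.erase y) w (X ∪ vis step y (w y) ∪ vis step x u) O) := by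
      intro u
      rw [Finset.insert_union, ih, Finset.union_right_comm]
      ring
    rw [avg_congr this, avg_add, avg_const]

end

end JB

open JB

variable {V M : Type} [DecidableEq V] [Fintype M] [Inhabited M]
variable (step : V → M → V) (r : V → ℝ) (K : ℕ) (B : Finset V)

/-- all rewards vanish if there are no moves -/
theorem JB.Phi_zero (Z : Finset V) (w : V → Fin 0 → M) (O : List V) :
    ∀ X : Finset V, Phi step r Z w X O = 0 := by
  induction O with
  | nil => intro X; unfold Phi base; exact Finset.sum_eq_zero fun z _ => by simp [gain, path]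
  | cons x O ih =>
    intro X
    unfold Phi
    rw [avg_congr (g := fun _ => 0), avg_const]
    intro u
    rw [ih]
    simp [gain, path]

theorem JB.F_nonneg' (hr : ∀ v, 0 ≤ r v) (O : List V) (Z : Set V) : 0 ≤ F step r K B O Z := by
  classical
  unfold F
  exact avg_nonneg fun w => Phi_nonneg step r hr _ _ _ _

open Classical in
theorem F_step (hr : ∀ v, 0 ≤ r v) (x : V) (O : List V) (Z : Set V) :
    F step r K B (x :: O) Z ≤ avg fun a : M => r (step x a) +
      (if step x a ∈ B ∧ step x a ∈ Z then F step r K B (step x a :: step x a :: O) (Z \ {step x a})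
        else F step r K B (step x a :: O) Z) := by
  cases K with
  | zero =>
    have h1 : F step r 0 B (x :: O) Z = 0 := by
      unfold F
      rw [avg_congr (g := fun _ => 0), avg_const]
      intro w
      exact JB.Phi_zero step r _ _ _ _
    rw [h1]
    refine avg_nonneg fun a => add_nonneg (hr _) ?_
    split_ifs
    · exact JB.F_nonneg' step r 0 B hr _ _
    · exact JB.F_nonneg' step r 0 B hr _ _
  | succ k =>
    -- the set of sleeping frogs
    set Z' : Finset V := B.filter (· ∈ Z) with hZ'
    -- the first step of the walk, and a longer walk afterwards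
    have hwalk : ∀ w : V → Fin (k + 1) → M, Phi step r Z' w ∅ (x :: O) ≤
        avg fun a : M => r (step x a) + avg fun u : Fin (k + 1) → M =>
          gain step r (step x a) u + Phi step r Z' w (insert (step x a) (vis step (step x a) u)) O := by
      intro w
      have e1 : Phi step r Z' w ∅ (x :: O) =
          avg fun u : Fin (k + 1) → M => gain step r x u + Phi step r Z' w (∅ ∪ vis step x u) O := rfl
      rw [e1, avg_equiv (Fin.consEquiv fun _ : Fin (k + 1) => M), avg_prod]
      refine avg_mono fun a => ?_
      rw [avg_equiv (Fin.snocEquiv fun _ : Fin (k + 1) => M)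
        (fun u : Fin (k + 1) → M => gain step r (step x a) u +
          Phi step r Z' w (insert (step x a) (vis step (step x a) u)) O), avg_prod, avg_comm,
        ← avg_const (α := Fin k → M) (r (step x a)), ← avg_add]
      refine avg_mono fun u' => ?_
      rw [← avg_const (α := M) (r (step x a)), ← avg_add]
      rw [← avg_const (α := M) (gain step r x ((Fin.consEquiv fun _ : Fin (k + 1) => M) (a, u')) +
        Phi step r Z' w (∅ ∪ vis step x ((Fin.consEquiv fun _ : Fin (k + 1) => M) (a, u'))) O)]
      refine avg_mono fun b => ?_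
      have l1 : List.ofFn ((Fin.consEquiv fun _ : Fin (k + 1) => M) (a, u')) = a :: List.ofFn u' := by
        simp [Fin.consEquiv, List.ofFn_succ]
      have l2 : List.ofFn ((Fin.snocEquiv fun _ : Fin (k + 1) => M) (b, u')) = List.ofFn u' ++ [b] := by
        rw [List.ofFn_succ']
        simp [Fin.snocEquiv]
      have g1 : gain step r x ((Fin.consEquiv fun _ : Fin (k + 1) => M) (a, u')) =
          r (step x a) + gainL step r (step x a) (List.ofFn u') := by
        have : gain step r x ((Fin.consEquiv fun _ : Fin (k + 1) => M) (a, u')) =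
          gainL step r x (List.ofFn ((Fin.consEquiv fun _ : Fin (k + 1) => M) (a, u'))) := rfl
        rw [this, l1, gainL_cons]
      have g2 : gain step r (step x a) ((Fin.snocEquiv fun _ : Fin (k + 1) => M) (b, u')) =
          gainL step r (step x a) (List.ofFn u' ++ [b]) := by
        have : gain step r (step x a) ((Fin.snocEquiv fun _ : Fin (k + 1) => M) (b, u')) =
          gainL step r (step x a) (List.ofFn ((Fin.snocEquiv fun _ : Fin (k + 1) => M) (b, u'))) := rfl
        rw [this, l2]
      have v1 : vis step x ((Fin.consEquiv fun _ : Fin (k + 1) => M) (a, u')) =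
          insert (step x a) (visL step (step x a) (List.ofFn u')) := by
        have : vis step x ((Fin.consEquiv fun _ : Fin (k + 1) => M) (a, u')) =
          visL step x (List.ofFn ((Fin.consEquiv fun _ : Fin (k + 1) => M) (a, u'))) := rfl
        rw [this, l1, visL_cons]
      have v2 : vis step (step x a) ((Fin.snocEquiv fun _ : Fin (k + 1) => M) (b, u')) =
          visL step (step x a) (List.ofFn u' ++ [b]) := by
        have : vis step (step x a) ((Fin.snocEquiv fun _ : Fin (k + 1) => M) (b, u')) =
          visL step (step x a) (List.ofFn ((Fin.snocEquiv fun _ : Fin (k + 1) => M) (b, u'))) := rfl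
        rw [this, l2]
      rw [g1, g2, v1, v2, Finset.empty_union]
      have h1 := gainL_append step r hr (step x a) (List.ofFn u') [b]
      have h2 := Phi_mono step r hr Z' w O
        (Finset.insert_subset_insert (step x a) (visL_append step (step x a) (List.ofFn u') [b]))
      linarith
    have hF : F step r (k + 1) B (x :: O) Z ≤ avg fun a : M => r (step x a) +
        avg fun w : B → Fin (k + 1) → M => avg fun u : Fin (k + 1) → M =>
          gain step r (step x a) u +
            Phi step r Z' (ext B w) (insert (step x a) (vis step (step x a) u)) O := by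
      have e1 : F step r (k + 1) B (x :: O) Z =
          avg fun w : B → Fin (k + 1) → M => Phi step r Z' (ext B w) ∅ (x :: O) := rfl
      rw [e1]
      refine (avg_mono fun w => hwalk (ext B w)).trans (le_of_eq ?_)
      rw [avg_comm]
      refine avg_congr fun a => ?_
      rw [avg_add, avg_const]
    refine hF.trans (avg_mono fun a => ?_)
    gcongr r (step x a) + ?_
    set y : V := step x a with hy
    by_cases hyB : y ∈ B ∧ y ∈ Z
    · rw [if_pos hyB]
      have hyZ' : y ∈ Z' := Finset.mem_filter.2 hyB
      have hZ'' : ∀ D : DecidablePred (· ∈ Z \ {y}), @Finset.filter V (· ∈ Z \ {y}) D B = Z'.erase y := by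
        intro D
        ext z
        simp only [hZ', Finset.mem_filter, Finset.mem_erase, Set.mem_sdiff, Set.mem_singleton_iff]
        tauto
      -- the right side
      have e2 : F step r (k + 1) B (y :: y :: O) (Z \ {y}) =
          avg fun w : B → Fin (k + 1) → M => avg fun u1 : Fin (k + 1) → M =>
            gain step r y u1 + avg fun u2 : Fin (k + 1) → M => gain step r y u2 +
              Phi step r (Z'.erase y) (ext B w) (∅ ∪ vis step y u1 ∪ vis step y u2) O := by
        unfold F
        refine avg_congr fun w => ?_
        rw [hZ'']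
        rfl
      -- the left side
      let G : (Fin (k + 1) → M) → (B → Fin (k + 1) → M) → ℝ := fun u1 w =>
        avg fun u : Fin (k + 1) → M => gain step r y u + (gain step r y u1 +
          Phi step r (Z'.erase y) (ext B w) (vis step y u ∪ vis step y u1) O)
      have e3 : ∀ w : B → Fin (k + 1) → M, (avg fun u : Fin (k + 1) → M => gain step r y u +
          Phi step r Z' (ext B w) (insert y (vis step y u)) O) = G (w ⟨y, hyB.1⟩) w := by
        intro w
        refine avg_congr fun u => ?_
        rw [Phi_insert step r Z' (ext B w) y hyZ' O]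
        have : ext B w y = w ⟨y, hyB.1⟩ := by simp [ext, hyB.1]
        rw [this]
      have hG : ∀ u w u', G u (Function.update w ⟨y, hyB.1⟩ u') = G u w := by
        intro u w u'
        refine avg_congr fun u2 => ?_
        congr 2
        refine Phi_dep step r (Z'.erase y) _ _ ?_ O _
        intro z hz
        obtain ⟨hzy, hzZ⟩ := Finset.mem_erase.1 hz
        have hzB : z ∈ B := (Finset.mem_filter.1 hzZ).1
        simp only [ext, hzB, dif_pos]
        rw [Function.update_of_ne]
        intro h
        exact hzy (congrArg Subtype.val h)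
      rw [avg_congr e3, avg_resample (⟨y, hyB.1⟩ : B) G hG, e2]
      refine le_of_eq (avg_congr fun w => avg_congr fun u1 => ?_)
      simp only [G]
      rw [← avg_const (α := Fin (k + 1) → M) (gain step r y u1), ← avg_add]
      refine avg_congr fun u => ?_
      rw [Finset.empty_union, avg_const, Finset.union_comm (vis step y u)]
      ring
    · rw [if_neg hyB]
      have hyZ' : y ∉ Z' := fun h => hyB (Finset.mem_filter.1 h)
      have e2 : F step r (k + 1) B (y :: O) Z =
          avg fun w : B → Fin (k + 1) → M => avg fun u : Fin (k + 1) → M =>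
            gain step r y u + Phi step r Z' (ext B w) (∅ ∪ vis step y u) O := rfl
      rw [e2]
      refine le_of_eq (avg_congr fun w => avg_congr fun u => ?_)
      congr 1
      refine Phi_irrel step r Z' (ext B w) O ?_
      intro z hz
      have hzy : z ≠ y := by rintro rfl; exact hyZ' hz
      simp [hzy]

/-- a stopped frog does nothing -/
theorem F_dead (x : V) (O : List V) (Z : Set V) (h : ∀ a, step x a = x) (hx : ¬ (x ∈ B ∧ x ∈ Z)) (hr : r x = 0) :
    F step r K B (x :: O) Z = F step r K B O Z := by
  classical
  have hp : ∀ l : List M, ∀ v ∈ path step x l, v = x := by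
    intro l
    induction l with
    | nil => intro v hv; simp [path] at hv
    | cons a l ih =>
      intro v hv
      simp only [path, h a, List.mem_cons] at hv
      rcases hv with hv | hv
      · exact hv
      · exact ih v hv
  have hg : ∀ u : Fin K → M, gain step r x u = 0 := by
    intro u
    unfold gain
    refine List.sum_eq_zero ?_
    intro a ha
    obtain ⟨v, hv, rfl⟩ := List.mem_map.1 ha
    rw [hp _ v hv, hr]
  unfold F
  refine avg_congr fun w => ?_
  have e1 : Phi step r (B.filter (· ∈ Z)) (ext B w) ∅ (x :: O) =
      avg fun u : Fin K → M => gain step r x u +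
        Phi step r (B.filter (· ∈ Z)) (ext B w) (∅ ∪ vis step x u) O := rfl
  rw [e1, avg_congr (g := fun _ => Phi step r (B.filter (· ∈ Z)) (ext B w) ∅ O), avg_const]
  intro u
  rw [hg, zero_add]
  refine Phi_irrel step r _ _ O ?_
  intro z hz
  have hzx : z ≠ x := by
    rintro rfl
    exact hx (Finset.mem_filter.1 hz)
  simp only [Finset.empty_union, Finset.notMem_empty, iff_false, vis, List.mem_toFinset]
  intro hz'
  exact hzx (hp _ z hz')

end Pool.Agent.U140.FM
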