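import Pool.Agent.U261.FM.FB
set_option autoImplicit false
/-! JOB C (symmetry). -/
namespace Pool.Agent.U140.FM
open Finset Relation

namespace JC

open JB

variable {V M : Type} [DecidableEq V] [Fintype M] [Inhabited M]
variable (step : V → M → V) (r : V → ℝ)

/-- the relabelled walk -/
def eW (τ : V → Equiv.Perm M) : (K : ℕ) → V → (Fin K → M) → (Fin K → M)
  | 0, _, u => u
  | K + 1, x, u => Fin.cons (τ x (u 0)) (eW τ K (step x (u 0)) (fun i => u i.succ))

theorem eW_inj (τ : V → Equiv.Perm M) : ∀ (K : ℕ) (x : V) (u u' : Fin K → M),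
    eW step τ K x u = eW step τ K x u' → u = u' := by
  intro K
  induction K with
  | zero => intro x u u' h; exact h
  | succ K ih =>
    intro x u u' h
    have h' : (Fin.cons (τ x (u 0)) (eW step τ K (step x (u 0)) (fun i => u i.succ)) : Fin (K + 1) → M) =
      Fin.cons (τ x (u' 0)) (eW step τ K (step x (u' 0)) (fun i => u' i.succ)) := h
    rw [Fin.cons_inj] at h'
    have h0 : u 0 = u' 0 := (τ x).injective h'.1
    have h1 := h'.2
    rw [h0] at h1
    have h2 := ih _ _ _ h1
    funext i
    refine Fin.cases h0 (fun j => ?_) i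
    exact congrFun h2 j

theorem eW_path (φ : Equiv.Perm V) (τ : V → Equiv.Perm M)
    (hstep : ∀ x a, step (φ x) (τ x a) = φ (step x a)) : ∀ (K : ℕ) (x : V) (u : Fin K → M),
    path step (φ x) (List.ofFn (eW step τ K x u)) = (path step x (List.ofFn u)).map φ := by
  intro K
  induction K with
  | zero => intro x u; simp [path]
  | succ K ih =>
    intro x u
    have e1 : List.ofFn (eW step τ (K + 1) x u) =
        τ x (u 0) :: List.ofFn (eW step τ K (step x (u 0)) (fun i => u i.succ)) := by
      rw [List.ofFn_succ]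
      rfl
    have e2 : List.ofFn u = u 0 :: List.ofFn (fun i : Fin K => u i.succ) := List.ofFn_succ
    rw [e1, e2]
    simp only [path, List.map_cons]
    rw [hstep, ih]

/-- the relabelling as a bijection -/
noncomputable def eq (τ : V → Equiv.Perm M) (K : ℕ) (x : V) : (Fin K → M) ≃ (Fin K → M) :=
  Equiv.ofBijective (eW step τ K x) (Finite.injective_iff_bijective.1 fun u u' h => eW_inj step τ K x u u' h)

theorem eq_apply (τ : V → Equiv.Perm M) (K : ℕ) (x : V) (u : Fin K → M) :
    eq step τ K x u = eW step τ K x u := rfl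

section

variable (φ : Equiv.Perm V) (τ : V → Equiv.Perm M)
    (hstep : ∀ x a, step (φ x) (τ x a) = φ (step x a))

include hstep

theorem vis_eq {K : ℕ} (x : V) (u : Fin K → M) :
    vis step (φ x) (eq step τ K x u) = (vis step x u).image φ := by
  unfold vis
  rw [eq_apply, eW_path step φ τ hstep]
  ext z
  simp only [List.mem_toFinset, List.mem_map, Finset.mem_image]

theorem gain_eq {K : ℕ} (hr : ∀ x, r (φ x) = r x) (x : V) (u : Fin K → M) :
    gain step r (φ x) (eq step τ K x u) = gain step r x u := by
  unfold gain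
  rw [eq_apply, eW_path step φ τ hstep, List.map_map]
  congr 1
  refine List.map_congr_left fun z _ => ?_
  exact hr z

theorem edge_eq {K : ℕ} (Z : Finset V) (w w' : V → Fin K → M)
    (hw : ∀ z, w' (φ z) = eq step τ K z (w z)) (a b : V) :
    edge step (Z.image φ) w' (φ a) (φ b) ↔ edge step Z w a b := by
  unfold edge
  rw [hw, vis_eq step φ τ hstep]
  simp only [Finset.mem_image, φ.injective.eq_iff, exists_eq_right]

theorem reach_eq {K : ℕ} (Z : Finset V) (w w' : V → Fin K → M)
    (hw : ∀ z, w' (φ z) = eq step τ K z (w z)) (X : Finset V) :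
    reach step (Z.image φ) w' (X.image φ) = (reach step Z w X).image φ := by
  classical
  have hp : ∀ a b, ReflTransGen (edge step (Z.image φ) w') (φ a) (φ b) ↔
      ReflTransGen (edge step Z w) a b := by
    intro a b
    constructor
    · intro h
      have := ReflTransGen.lift (p := edge step Z w) φ.symm (fun x y hxy => by
        have := (edge_eq step φ τ hstep Z w w' hw (φ.symm x) (φ.symm y)).1
        rw [Equiv.apply_symm_apply, Equiv.apply_symm_apply] at this
        exact this hxy) _ _ h
      have h2 : ReflTransGen (edge step Z w) (φ.symm (φ a)) (φ.symm (φ b)) := this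
      rwa [Equiv.symm_apply_apply, Equiv.symm_apply_apply] at h2
    · intro h
      exact ReflTransGen.lift (p := edge step (Z.image φ) w') φ
        (fun x y hxy => (edge_eq step φ τ hstep Z w w' hw x y).2 hxy) _ _ h
  ext z
  unfold reach
  simp only [Finset.mem_filter, Finset.mem_image]
  constructor
  · rintro ⟨⟨z0, hz0, rfl⟩, x, ⟨x0, hx0, rfl⟩, ⟨x1, hx1, hx1'⟩, h⟩
    have : x1 = x0 := φ.injective hx1'
    subst this
    exact ⟨z0, ⟨hz0, x1, hx0, hx1, (hp _ _).1 h⟩, rfl⟩
  · rintro ⟨z0, ⟨hz0, x0, hx0, hx0Z, h⟩, rfl⟩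
    exact ⟨⟨z0, hz0, rfl⟩, φ x0, ⟨x0, hx0, rfl⟩, ⟨x0, hx0Z, rfl⟩, (hp _ _).2 h⟩

theorem Phi_eq {K : ℕ} (hr : ∀ x, r (φ x) = r x) (Z : Finset V) (w w' : V → Fin K → M)
    (hw : ∀ z, w' (φ z) = eq step τ K z (w z)) (O : List V) : ∀ X : Finset V,
    Phi step r (Z.image φ) w' (X.image φ) (O.map φ) = Phi step r Z w X O := by
  classical
  induction O with
  | nil =>
    intro X
    unfold Phi base
    simp only [List.map_nil]
    rw [reach_eq step φ τ hstep Z w w' hw, Finset.sum_image fun _ _ _ _ h => φ.injective h]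
    refine Finset.sum_congr rfl fun z _ => ?_
    rw [hw, gain_eq step r φ τ hstep hr]
  | cons x O ih =>
    intro X
    have e1 : Phi step r (Z.image φ) w' (X.image φ) ((x :: O).map φ) = avg fun u : Fin K → M =>
        gain step r (φ x) u + Phi step r (Z.image φ) w' (X.image φ ∪ vis step (φ x) u) (O.map φ) := rfl
    have e2 : Phi step r Z w X (x :: O) = avg fun u : Fin K → M =>
        gain step r x u + Phi step r Z w (X ∪ vis step x u) O := rfl
    rw [e1, e2, avg_equiv (eq step τ K x)]
    refine avg_congr fun u => ?_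
    rw [gain_eq step r φ τ hstep hr, vis_eq step φ τ hstep, ← Finset.image_union, ih]

end

end JC

open JB JC

variable {V M : Type} [DecidableEq V] [Fintype M] [Inhabited M]
variable (step : V → M → V) (r : V → ℝ) (K : ℕ) (B : Finset V)

theorem F_symm (φ : Equiv.Perm V) (τ : V → Equiv.Perm M) (hstep : ∀ x a, step (φ x) (τ x a) = φ (step x a))
    (hB : ∀ x, φ x ∈ B ↔ x ∈ B) (hr : ∀ x, r (φ x) = r x) (O : List V) (Z : Set V) :
    F step r K B (O.map φ) (φ '' Z) = F step r K B O Z := by
  classical
  let φB : B ≃ B := φ.subtypePerm hB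
  let E : (B → Fin K → M) ≃ (B → Fin K → M) :=
    Equiv.piCongr (W := fun _ : B => Fin K → M) (Z := fun _ : B => Fin K → M) φB
      fun z : B => JC.eq step τ K z.1
  have hE : ∀ (w : B → Fin K → M) (z : B), E w (φB z) = JC.eq step τ K z.1 (w z) := fun w z =>
    Equiv.piCongr_apply_apply (W := fun _ : B => Fin K → M) (Z := fun _ : B => Fin K → M) φB _ w z
  have hfil : ∀ (D : DecidablePred (· ∈ (φ '' Z : Set V))) (D' : DecidablePred (· ∈ Z)),
      @Finset.filter V (· ∈ (φ '' Z : Set V)) D B = (@Finset.filter V (· ∈ Z) D' B).image φ := by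
    intro D D'
    ext z
    simp only [Finset.mem_filter, Finset.mem_image, Set.mem_image]
    constructor
    · rintro ⟨hz, z0, hz0, rfl⟩
      exact ⟨z0, ⟨(hB z0).1 hz, hz0⟩, rfl⟩
    · rintro ⟨z0, ⟨hz, hz0⟩, rfl⟩
      exact ⟨(hB z0).2 hz, z0, hz0, rfl⟩
  unfold F
  rw [avg_equiv E]
  refine avg_congr fun w => ?_
  rw [hfil _ (fun a => Classical.propDecidable _)]
  set Z' : Finset V := B.filter (· ∈ Z) with hZ'
  -- the transported moves
  let w' : V → Fin K → M := fun y => JC.eq step τ K (φ.symm y) (ext B w (φ.symm y))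
  have hw' : ∀ z, w' (φ z) = JC.eq step τ K z (ext B w z) := by
    intro z
    simp only [w', Equiv.symm_apply_apply]
  have hdep : Phi step r (Z'.image φ) (ext B (E w)) ∅ (O.map φ) =
      Phi step r (Z'.image φ) w' ∅ (O.map φ) := by
    refine Phi_dep step r _ _ _ ?_ _ _
    intro y hy
    obtain ⟨z, hz, rfl⟩ := Finset.mem_image.1 hy
    have hzB : z ∈ B := (Finset.mem_filter.1 hz).1
    rw [hw']
    have h1 : ext B (E w) (φ z) = E w (φB ⟨z, hzB⟩) := by
      unfold ext
      rw [dif_pos ((hB z).2 hzB)]
      rfl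
    have h2 : ext B w z = w ⟨z, hzB⟩ := by
      unfold ext
      rw [dif_pos hzB]
    rw [h1, h2, hE]
  have h3 := Phi_eq step r φ τ hstep hr Z' (ext B w) w' hw' O ∅
  rw [Finset.image_empty] at h3
  rw [hdep, h3]

/-! ### the tree -/

theorem JC.uniq {v l l' : Vt} {i i' : Fin 4} (h : l ++ i :: v = l' ++ i' :: v) : l = l' ∧ i = i' := by
  have h1 := List.append_inj' h (by simp)
  exact ⟨h1.1, (List.cons.inj h1.2).1⟩

open Classical in
/-- the function underlying `sw` -/
noncomputable def JC.swf (v : Vt) (σ : Equiv.Perm (Fin 4)) (x : Vt) : Vt :=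
  if h : ∃ p : Vt × Fin 4, x = p.1 ++ p.2 :: v then h.choose.1 ++ σ h.choose.2 :: v else x

theorem JC.swf_child (v : Vt) (σ : Equiv.Perm (Fin 4)) (l : Vt) (i : Fin 4) :
    JC.swf v σ (l ++ i :: v) = l ++ σ i :: v := by
  have h : ∃ p : Vt × Fin 4, l ++ i :: v = p.1 ++ p.2 :: v := ⟨(l, i), rfl⟩
  unfold JC.swf
  rw [dif_pos h]
  have h1 := JC.uniq h.choose_spec
  rw [← h1.1, ← h1.2]

theorem JC.swf_fix (v : Vt) (σ : Equiv.Perm (Fin 4)) (x : Vt) (h : ∀ l i, x ≠ l ++ i :: v) :
    JC.swf v σ x = x := by
  unfold JC.swf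
  rw [dif_neg]
  rintro ⟨p, hp⟩
  exact h p.1 p.2 hp

theorem JC.swf_inv (v : Vt) (σ σ' : Equiv.Perm (Fin 4)) (hσ : ∀ i, σ' (σ i) = i) (x : Vt) :
    JC.swf v σ' (JC.swf v σ x) = x := by
  by_cases h : ∃ p : Vt × Fin 4, x = p.1 ++ p.2 :: v
  · obtain ⟨⟨l, i⟩, rfl⟩ := h
    simp only
    rw [JC.swf_child, JC.swf_child, hσ]
  · have h' : ∀ l i, x ≠ l ++ i :: v := fun l i hx => h ⟨(l, i), hx⟩
    rw [JC.swf_fix v σ x h', JC.swf_fix v σ' x h']

/-- permute the subtrees of the children of `v`: `l ++ (i :: v)` is mapped to `l ++ (σ i :: v)`, everything else is fixed -/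
noncomputable def sw (v : Vt) (σ : Equiv.Perm (Fin 4)) : Equiv.Perm Vt where
  toFun := JC.swf v σ
  invFun := JC.swf v σ.symm
  left_inv := JC.swf_inv v σ σ.symm fun i => σ.symm_apply_apply i
  right_inv := JC.swf_inv v σ.symm σ fun i => σ.apply_symm_apply i

theorem sw_child (v : Vt) (σ : Equiv.Perm (Fin 4)) (l : Vt) (i : Fin 4) : sw v σ (l ++ i :: v) = l ++ σ i :: v :=
  JC.swf_child v σ l i

theorem sw_fix (v : Vt) (σ : Equiv.Perm (Fin 4)) (x : Vt) (h : ∀ l i, x ≠ l ++ i :: v) : sw v σ x = x :=
  JC.swf_fix v σ x h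

theorem sw_length (v : Vt) (σ : Equiv.Perm (Fin 4)) (x : Vt) : (sw v σ x).length = x.length := by
  by_cases h : ∃ p : Vt × Fin 4, x = p.1 ++ p.2 :: v
  · obtain ⟨⟨l, i⟩, rfl⟩ := h
    simp only
    rw [sw_child]
    simp
  · rw [sw_fix v σ x fun l i hx => h ⟨(l, i), hx⟩]

theorem sw_step (n : ℕ) (v : Vt) (σ : Equiv.Perm (Fin 4)) (x : Vt) (a : Mv) :
    stepT n (sw v σ x) ((if x = v then Equiv.prodCongr σ (Equiv.refl _) else Equiv.refl _ : Equiv.Perm Mv) a) =
      sw v σ (stepT n x a) := by
  have hnv : ∀ l i, v ≠ l ++ i :: v := by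
    intro l i h
    have := congrArg List.length h
    simp at this
    omega
  by_cases hn : n < x.length
  · have h1 : n < (sw v σ x).length := by rw [sw_length]; exact hn
    simp only [stepT, if_pos h1, if_pos hn]
  · have h1 : ¬ n < (sw v σ x).length := by rw [sw_length]; exact hn
    by_cases hxv : x = v
    · subst hxv
      rw [if_pos rfl, sw_fix x σ x hnv]
      by_cases hx0 : x = []
      · subst hx0
        simp only [stepT, if_neg hn, if_true]
        have := sw_child [] σ [] a.1
        simp only [List.nil_append] at this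
        rw [this]
        rfl
      · by_cases ha : a.2 = 0
        · have ha' : ((Equiv.prodCongr σ (Equiv.refl (Fin 5))) a).2 = 0 := ha
          simp only [stepT, if_neg hn, if_neg hx0, if_pos ha, if_pos ha']
          rw [sw_fix]
          intro l i h
          have := congrArg List.length h
          simp at this
          omega
        · have ha' : ¬ ((Equiv.prodCongr σ (Equiv.refl (Fin 5))) a).2 = 0 := ha
          simp only [stepT, if_neg hn, if_neg hx0, if_neg ha, if_neg ha']
          have := sw_child x σ [] a.1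
          simp only [List.nil_append] at this
          rw [this]
          rfl
    · rw [if_neg hxv]
      simp only [Equiv.refl_apply]
      by_cases h : ∃ p : Vt × Fin 4, x = p.1 ++ p.2 :: v
      · obtain ⟨⟨l, i⟩, rfl⟩ := h
        simp only at hn h1 hxv ⊢
        have hx0 : l ++ i :: v ≠ [] := by simp
        have hx1 : l ++ σ i :: v ≠ [] := by simp
        rw [sw_child] at h1 ⊢
        by_cases ha : a.2 = 0
        · simp only [stepT, if_neg hn, if_neg h1, if_neg hx0, if_neg hx1, if_pos ha]
          cases l with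
          | nil =>
            simp only [List.nil_append, List.tail_cons]
            rw [sw_fix v σ v hnv]
          | cons j l =>
            simp only [List.cons_append, List.tail_cons]
            rw [sw_child]
        · simp only [stepT, if_neg hn, if_neg h1, if_neg hx0, if_neg hx1, if_neg ha]
          rw [← List.cons_append, ← List.cons_append, sw_child]
      · have h' : ∀ l i, x ≠ l ++ i :: v := fun l i hx => h ⟨(l, i), hx⟩
        rw [sw_fix v σ x h']
        symm
        apply sw_fix
        intro l i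
        by_cases hx0 : x = []
        · subst hx0
          simp only [stepT, if_neg hn, if_true]
          intro hh
          cases l with
          | nil =>
            simp only [List.nil_append, List.cons.injEq] at hh
            exact hxv hh.2
          | cons j l =>
            have := congrArg List.length hh
            simp at this
        · by_cases ha : a.2 = 0
          · simp only [stepT, if_neg hn, if_neg hx0, if_pos ha]
            intro hh
            obtain ⟨j, t, rfl⟩ := List.exists_cons_of_ne_nil hx0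
            simp only [List.tail_cons] at hh
            exact h' (j :: l) i (by rw [hh]; rfl)
          · simp only [stepT, if_neg hn, if_neg hx0, if_neg ha]
            intro hh
            cases l with
            | nil =>
              simp only [List.nil_append, List.cons.injEq] at hh
              exact hxv hh.2
            | cons j l =>
              simp only [List.cons_append, List.cons.injEq] at hh
              exact h' l i hh.2

theorem FT_sw (n K : ℕ) (v : Vt) (σ : Equiv.Perm (Fin 4)) (O : List Vt) (hO : ∀ x ∈ O, ∀ l i, x ≠ l ++ i :: v) (Z : Set Vt) :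
    FT n K O (sw v σ '' Z) = FT n K O Z := by
  classical
  have h1 : O.map (sw v σ) = O := by
    conv_rhs => rw [← List.map_id O]
    refine List.map_congr_left fun x hx => ?_
    exact sw_fix v σ x (hO x hx)
  have h2 := F_symm (stepT n) rt K (ball n) (sw v σ)
    (fun x => if x = v then Equiv.prodCongr σ (Equiv.refl _) else Equiv.refl _)
    (fun x a => sw_step n v σ x a) ?_ ?_ O Z
  · rw [h1] at h2
    exact h2
  · intro x
    simp only [ball, Set.Finite.mem_toFinset, Set.mem_setOf_eq, sw_length]
  · intro x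
    unfold rt
    have : sw v σ x = [] ↔ x = [] := by
      rw [← List.length_eq_zero_iff, sw_length, List.length_eq_zero_iff]
    simp only [this]

end Pool.Agent.U140.FM
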